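import Pool.Agent.W332.SL7.Stmt

set_option autoImplicit false
set_option linter.unusedSectionVars false

/-!
# Coordinate spaces of elements of the kernel of Leopoldt's map: monomial representations
-/

namespace Pool.Agent.W332.SL7

open NumberField TensorProduct Module Pool.Agent.W289.SL Pool.Agent.W332.SL6
open Pool.Agent.W254.Ab (boxV box_mul gen_arith finrank_boxV_pos finrank_boxV_le one_mem_boxV)

variable {p : ℕ} [Fact p.Prime]

lemma coords_ne_bot {H : Type} [Field H] [NumberField H] {A : QSub ℂ_[p]} {x : UM p H}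
    (hx : x ≠ 0) (hA : HasCoords A x) : A ≠ ⊥ := by
  intro h
  apply hx
  refine AddSubmonoid.closure_induction (motive := fun x _ => x = 0) ?_ rfl ?_ hA
  · rintro _ ⟨a, ha, u, rfl⟩
    rw [h, Submodule.mem_bot] at ha
    rw [ha, TensorProduct.zero_tmul]
  · rintro x y - - rfl rfl
    exact add_zero 0

lemma coords_mono {H : Type} [Field H] [NumberField H] {A A' : QSub ℂ_[p]} (h : A ≤ A')
    {x : UM p H} (hA : HasCoords A x) : HasCoords A' x := by
  refine AddSubmonoid.closure_mono ?_ hA
  rintro y ⟨a, ha, u, rfl⟩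
  exact ⟨a, h ha, u, rfl⟩

/-- the growth inequality for all larger spaces implies all bounds -/
theorem bounds_of (A : QSub ℂ_[p]) (hAf : FinQ A) (N : ℕ) (hAne : A ≠ ⊥)
    (main : ∀ A' : QSub ℂ_[p], FinQ A' → A ≤ A' → ∀ B : QSub ℂ_[p], FinQ B → ∀ s e : ℕ,
      s ≤ dimQ B → dimQ (B * A') ≤ dimQ B + e → N * s ≤ (e + s) * (e + s - 1)) :
    Bounds A N := by
  have hAf' : FiniteDimensional (algebraicClosure ℚ ℂ_[p]) A := hAf
  refine ⟨fun B hB s e hs he => main A hAf le_rfl B hB s e hs he, ?_,
    fun D c hD => hilbert_arith' A hAne _ (fun B hB s δ hs hδ => main A hAf le_rfl B hB s δ hs hδ)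
      D c hD, ?_⟩
  · have : FiniteDimensional (algebraicClosure ℚ ℂ_[p])
        (1 : Submodule (algebraicClosure ℚ ℂ_[p]) ℂ_[p]) := by
      rw [Submodule.one_eq_span]
      infer_instance
    have h3 := main A hAf le_rfl 1 this 1 (dimQ A - 1) (by
      unfold dimQ
      rw [Submodule.one_eq_span, finrank_span_singleton one_ne_zero]) (by
      unfold dimQ
      rw [one_mul, Submodule.one_eq_span, finrank_span_singleton one_ne_zero]
      omega)
    have h4 : 1 ≤ dimQ A := by
      apply Nat.one_le_iff_ne_zero.mpr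
      intro h
      exact hAne (Submodule.finrank_eq_zero.mp h)
    rw [mul_one, Nat.sub_add_cancel h4] at h3
    exact h3
  · intro n D t hAt
    have hAt' : A ≤ boxV t (D + 1) := hAt
    have key : ∀ B C : Submodule (algebraicClosure ℚ ℂ_[p]) ℂ_[p],
        FiniteDimensional (algebraicClosure ℚ ℂ_[p]) B →
        FiniteDimensional (algebraicClosure ℚ ℂ_[p]) C →
        (∀ b ∈ B, ∀ a ∈ boxV t (D + 1), b * a ∈ C) →
        N * finrank (algebraicClosure ℚ ℂ_[p]) B ≤
          finrank (algebraicClosure ℚ ℂ_[p]) C *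
            (finrank (algebraicClosure ℚ ℂ_[p]) C - 1) := by
      intro B C hB hC hBC
      have hBC' : B ≤ C := fun b hb => by
        have := hBC b hb 1 (one_mem_boxV t (by omega))
        rwa [mul_one] at this
      have hle := Submodule.finrank_mono hBC'
      have hmul : B * boxV t (D + 1) ≤ C := by
        rw [Submodule.mul_le]
        exact hBC
      have h5 := main (boxV t (D + 1)) (inferInstanceAs (FiniteDimensional _ _)) hAt' B hB
        (finrank (algebraicClosure ℚ ℂ_[p]) B)
        (finrank (algebraicClosure ℚ ℂ_[p]) C - finrank (algebraicClosure ℚ ℂ_[p]) B) le_rfl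
        ((Submodule.finrank_mono hmul).trans (by unfold dimQ; omega))
      rwa [Nat.sub_add_cancel hle] at h5
    rcases Nat.eq_zero_or_pos D with hD0 | hD
    · subst hD0
      have h0 : finrank (algebraicClosure ℚ ℂ_[p]) (boxV t 1) = 1 := by
        have h1 := finrank_boxV_pos t (N := 1) le_rfl
        have h2 := finrank_boxV_le t 1
        rw [one_pow] at h2
        exact le_antisymm h2 h1
      have h1 := key (boxV t 1) (boxV t 1) inferInstance inferInstance
        (box_mul t 1 1 1 (by omega))
      rw [h0] at h1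
      omega
    · exact gen_arith t D _ hD (key (boxV t D) (boxV t (2 * D)) inferInstance inferInstance
        (box_mul t D (D + 1) (2 * D) (by omega)))

/-- **Leopoldt's conjecture, monomial representations.** -/
theorem monomial (p : ℕ) [Fact p.Prime] (K H : Type) [Field K] [NumberField K]
    [Field H] [NumberField H] [Algebra K H]
    (χ : (H ≃ₐ[K] H) →* ℂ_[p]ˣ) (hsep : Separates p K H Set.univ χ)
    (L : ℂ_[p] → ℂ_[p]) (hL : IsIwasawaLog p L)
    (r : ℕ) (hr : r ≠ 0) (x : Fin r → UM p H) (hx0 : Indep x)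
    (hx : ∀ i, InKernel Set.univ χ hL (x i)) (A : QSub ℂ_[p]) (hAf : FinQ A)
    (hA : ∀ i, Coords A (x i)) : Bounds A (finrank ℚ K * r) := by
  have hfin : FiniteDimensional K H := Module.Finite.of_restrictScalars_finite ℚ K H
  have hcard : (Set.univ : Set (K →+* ℂ_[p])).ncard = finrank ℚ K := by
    rw [Set.ncard_univ, Nat.card_eq_fintype_card]
    exact NumberField.Embeddings.card K ℂ_[p]
  have hx0' : LinearIndependent ℂ_[p] x := hx0
  refine bounds_of A hAf _ (coords_ne_bot (hx0'.ne_zero ⟨0, Nat.pos_of_ne_zero hr⟩) (hA _)) ?_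
  intro A' hA' hle B hB s e hs he
  have i1 : FiniteDimensional (algebraicClosure ℚ ℂ_[p]) A' := hA'
  have i2 : FiniteDimensional (algebraicClosure ℚ ℂ_[p]) B := hB
  rw [← hcard]
  exact main_ineq K H χ Set.univ hsep L hL r x (fun i => (hx i).1) hx0 (fun i => (hx i).2) A' B
    (fun i => coords_mono hle (hA i)) s e hs he

end Pool.Agent.W332.SL7
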