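import Pool.Agent.W332.SL7.Final

set_option autoImplicit false

/-!
# Coordinate spaces: short form of the statement
-/

namespace Pool.Agent.W332.SL7

open NumberField TensorProduct Module Pool.Agent.W289.SL

section generic

variable {Ω : Type} [Field Ω] [CharZero Ω]

variable (Ω) in
/-- subspaces of `Ω` over the field `ℚ̄` of algebraic numbers of `Ω` -/
abbrev QSub : Type := Submodule (algebraicClosure ℚ Ω) Ω

/-- finite dimensional over `ℚ̄` -/
def FinQ (A : QSub Ω) : Prop := FiniteDimensional (algebraicClosure ℚ Ω) A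

/-- dimension over `ℚ̄` -/
noncomputable def dimQ (A : QSub Ω) : ℕ := finrank (algebraicClosure ℚ Ω) A

/-- the `ℚ̄`-span of the monomials in `t` with exponents `≤ D` -/
noncomputable def box {n : ℕ} (t : Fin n → Ω) (D : ℕ) : QSub Ω :=
  Submodule.span (algebraicClosure ℚ Ω)
    (Set.range (fun e : Fin n → Fin (D + 1) => ∏ i, t i ^ (e i : ℕ)))

/-- the constraints on the space `A` with the number `N` -/
structure Bounds (A : QSub Ω) (N : ℕ) : Prop where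
  growth : ∀ B : QSub Ω, FinQ B → ∀ s e : ℕ, s ≤ dimQ B → dimQ (B * A) ≤ dimQ B + e →
    N * s ≤ (e + s) * (e + s - 1)
  dim : N ≤ dimQ A * (dimQ A - 1)
  degree : ∀ D c : ℕ, (∀ k : ℕ, dimQ (A ^ k) ≤ k * D + c) → N ≤ 4 * D - 2
  poly : ∀ (n D : ℕ) (t : Fin n → Ω), A ≤ box t D → N ≤ (4 * D) ^ n - 2 ^ n

/-- `x` is a sum of tensors `a ⊗ u` with `a ∈ A` -/
def Coords {G : Type} [AddCommGroup G] (A : QSub Ω) (x : Ω ⊗[ℤ] G) : Prop :=
  x ∈ AddSubmonoid.closure {y : Ω ⊗[ℤ] G | ∃ a ∈ A, ∃ u : G, y = a ⊗ₜ[ℤ] u}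

omit [CharZero Ω] in
/-- linearly independent over `Ω` -/
def Indep {G : Type} [AddCommGroup G] {r : ℕ} (x : Fin r → Ω ⊗[ℤ] G) : Prop :=
  LinearIndependent Ω x

end generic

section

variable {p : ℕ} [Fact p.Prime]

/-- `x` lies in the `χ`-part of `ℂ_p ⊗ 𝓞_H^×` and is killed by `log_{S,p}` -/
def InKernel {K H : Type} [Field K] [Field H] [NumberField H] [Algebra K H]
    (S : Set (K →+* ℂ_[p])) (χ : (H ≃ₐ[K] H) →* ℂ_[p]ˣ) {L : ℂ_[p] → ℂ_[p]}
    (hL : IsIwasawaLog p L) (x : UM p H) : Prop :=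
  (∀ τ : H ≃ₐ[K] H, actLin p (τ : H →+* H) x = ((χ τ : ℂ_[p]ˣ) : ℂ_[p]) • x) ∧
  ∀ σ : H →+* ℂ_[p], σ.comp (algebraMap K H) ∈ S → logLin hL σ x = 0

end

theorem coordinate_spaces' (p : ℕ) [Fact p.Prime] (F K H : Type) [Field F] [NumberField F]
    [Field K] [NumberField K] [Algebra F K] (hFK : finrank F K = 2)
    [Field H] [NumberField H] [Algebra K H]
    (χ : (H ≃ₐ[K] H) →* ℂ_[p]ˣ) (S : Set (K →+* ℂ_[p])) (hS : IsCMType p F K S)
    (hsep : Separates p K H S χ) (L : ℂ_[p] → ℂ_[p]) (hL : IsIwasawaLog p L)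
    (r : ℕ) (x : Fin r → UM p H) (hx0 : Indep x)
    (hx : ∀ i, InKernel S χ hL (x i)) (A : QSub ℂ_[p]) (hAf : FinQ A) (hA : ∀ i, Coords A (x i)) :
    Bounds A (finrank ℚ F * r) := by
  have hAf' : FiniteDimensional (algebraicClosure ℚ ℂ_[p]) A := hAf
  obtain ⟨h1, h2, h3, h4⟩ := coordinate_spaces F K H hFK χ S hS hsep L hL r x hx0
    (fun i => (hx i).1) (fun i => (hx i).2) A hA
  refine ⟨fun B hB s e hs he => ?_, h2, h3, fun n D t ht => h4 n D t ht⟩
  have hB' : FiniteDimensional (algebraicClosure ℚ ℂ_[p]) B := hB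
  exact h1 B s e hs he

end Pool.Agent.W332.SL7
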