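import Pool.Agent.W332.SL7.Main
import Pool.Agent.W254.Ab.Four2

set_option autoImplicit false
set_option linter.unusedSectionVars false

/-!
# Coordinate spaces: consequences
-/

namespace Pool.Agent.W332.SL7

open NumberField TensorProduct Module Pool.Agent.W289.SL Pool.Agent.W332.SL6
open Pool.Agent.W254.Ab (boxV box_mul gen_arith finrank_boxV_pos finrank_boxV_le one_mem_boxV)

/-- the growth argument (a copy of `Pool.Agent.W254.PA.hilbert_arith` by helper254, with `d` in
place of `d - 1`) -/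
theorem hilbert_arith' {K L : Type*} [Field K] [Field L] [Algebra K L] (A : Submodule K L)
    [FiniteDimensional K A] (hA : A ≠ ⊥) (d : ℕ)
    (h : ∀ (B : Submodule K L) [FiniteDimensional K B] (s δ : ℕ), s ≤ finrank K B →
      finrank K (B * A : Submodule K L) ≤ finrank K B + δ →
      d * s ≤ (δ + s) * (δ + s - 1)) (D c : ℕ)
    (hD : ∀ k : ℕ, finrank K (A ^ k : Submodule K L) ≤ k * D + c) : d ≤ 4 * D - 2 := by
  have hfd : ∀ k : ℕ, FiniteDimensional K (A ^ k : Submodule K L) := fun k =>
    Module.Finite.iff_fg.mpr (Submodule.FG.pow (Module.Finite.iff_fg.mp inferInstance) k)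
  have hpos : ∀ k : ℕ, 1 ≤ finrank K (A ^ k : Submodule K L) := by
    intro k
    obtain ⟨u, huA, hu⟩ := Submodule.exists_mem_ne_zero_of_ne_bot hA
    have := hfd k
    apply Nat.one_le_iff_ne_zero.mpr
    intro h0
    have h1 : (A ^ k : Submodule K L) = ⊥ := Submodule.finrank_eq_zero.mp h0
    have h2 : u ^ k ∈ (A ^ k : Submodule K L) := Submodule.pow_mem_pow A huA k
    rw [h1, Submodule.mem_bot] at h2
    exact pow_ne_zero k hu h2
  by_contra hcon
  rw [not_le] at hcon
  have hd1 : 1 ≤ d := by omega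
  -- strict growth
  have hstep : ∀ k : ℕ, finrank K (A ^ k : Submodule K L) + 1 ≤
      finrank K (A ^ (k + 1) : Submodule K L) := by
    intro k
    by_contra hk
    have := hfd k
    have h1 := h (A ^ k) 1 0 (hpos k) (by rw [← pow_succ]; omega)
    simp at h1
    omega
  have hlow : ∀ k : ℕ, k + 1 ≤ finrank K (A ^ k : Submodule K L) := by
    intro k
    induction k with
    | zero => exact hpos 0
    | succ k ih => have := hstep k; omega
  have hstep2 : ∀ k : ℕ, D ≤ finrank K (A ^ k : Submodule K L) →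
      finrank K (A ^ k : Submodule K L) + D + 1 ≤ finrank K (A ^ (k + 1) : Submodule K L) := by
    intro k hk
    rcases Nat.eq_zero_or_pos D with h0 | h0
    · subst h0; exact hstep k
    by_contra hk2
    have := hfd k
    have h1 := h (A ^ k) D D hk (by rw [← pow_succ]; omega)
    have h2 : (D + D) * (D + D - 1) = (2 * (D + D - 1)) * D := by ring
    rw [h2] at h1
    have h3 := Nat.le_of_mul_le_mul_right h1 h0
    omega
  have hlow2 : ∀ k : ℕ, k * (D + 1) ≤ finrank K (A ^ (D + k) : Submodule K L) := by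
    intro k
    induction k with
    | zero => simp
    | succ k ih =>
      have h1 := hlow (D + k)
      have h2 := hstep2 (D + k) (by omega)
      rw [add_mul, one_mul, ← add_assoc D k 1]
      omega
  have h1 := hlow2 (D * D + c + 1)
  have h2 := hD (D + (D * D + c + 1))
  have h3 : (D * D + c + 1) * (D + 1) = (D + (D * D + c + 1)) * D + c + 1 := by ring
  omega

variable {p : ℕ} [Fact p.Prime]

/-- a CM type has `[F : ℚ]` elements -/
theorem ncard_cmtype (F K : Type) [Field F] [NumberField F] [Field K] [NumberField K]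
    [Algebra F K] (hFK : finrank F K = 2) (S : Set (K →+* ℂ_[p])) (hS : IsCMType p F K S) :
    S.ncard = finrank ℚ F := by
  classical
  have : Algebra.IsQuadraticExtension F K := ⟨hFK⟩
  have : FiniteDimensional F K := Module.finite_of_finrank_pos (by omega)
  have : IsGalois F K := inferInstance
  have hcard : Nat.card (K ≃ₐ[F] K) = 2 := by rw [IsGalois.card_aut_eq_finrank, hFK]
  obtain ⟨c, hc1, -⟩ := (Nat.card_eq_two_iff' (1 : K ≃ₐ[F] K)).1 hcard
  have hcc : ∀ k : K, c (c k) = k := by
    intro k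
    have h1 : c ^ Nat.card (K ≃ₐ[F] K) = 1 := pow_card_eq_one'
    rw [hcard, pow_two] at h1
    exact congrArg (fun f : K ≃ₐ[F] K => f k) h1
  have hbcc : ∀ b : K →+* ℂ_[p], (b.comp (c : K →+* K)).comp (c : K →+* K) = b := by
    intro b
    ext k
    change b (c (c k)) = b k
    rw [hcc]
  have hSc := hS c hc1
  have himg : Sᶜ = (fun b : K →+* ℂ_[p] => b.comp (c : K →+* K)) '' S := by
    ext b
    constructor
    · intro hb
      refine ⟨b.comp (c : K →+* K), ?_, hbcc b⟩
      by_contra h
      exact hb ((hSc b).2 h)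
    · rintro ⟨b', hb', rfl⟩
      exact (hSc b').1 hb'
  have h1 : (Sᶜ).ncard = S.ncard := by
    rw [himg]
    apply Set.ncard_image_of_injective
    intro b b' h
    have h2 : (b.comp (c : K →+* K)).comp (c : K →+* K) =
        (b'.comp (c : K →+* K)).comp (c : K →+* K) := congrArg (fun f => f.comp (c : K →+* K)) h
    rwa [hbcc, hbcc] at h2
  have h2 := Set.ncard_add_ncard_compl S
  have h3 : Nat.card (K →+* ℂ_[p]) = finrank ℚ K := by
    rw [Nat.card_eq_fintype_card]
    exact NumberField.Embeddings.card K ℂ_[p]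
  have h4 : finrank ℚ F * finrank F K = finrank ℚ K := Module.finrank_mul_finrank ℚ F K
  rw [hFK] at h4
  omega

/-- **Main theorem.** -/
theorem coordinate_spaces (F K H : Type) [Field F] [NumberField F] [Field K] [NumberField K]
    [Algebra F K] (hFK : finrank F K = 2) [Field H] [NumberField H] [Algebra K H]
    (χ : (H ≃ₐ[K] H) →* ℂ_[p]ˣ) (S : Set (K →+* ℂ_[p])) (hS : IsCMType p F K S)
    (hsep : Separates p K H S χ) (L : ℂ_[p] → ℂ_[p])
    (hL : IsIwasawaLog p L) (r : ℕ) (x : Fin r → UM p H) (hx0 : LinearIndependent ℂ_[p] x)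
    (hx : ∀ i, ∀ τ : H ≃ₐ[K] H, actLin p (τ : H →+* H) (x i) = ((χ τ : ℂ_[p]ˣ) : ℂ_[p]) • x i)
    (hlog : ∀ i, ∀ σ : H →+* ℂ_[p], σ.comp (algebraMap K H) ∈ S → logLin hL σ (x i) = 0)
    (A : Submodule (algebraicClosure ℚ ℂ_[p]) ℂ_[p])
    [FiniteDimensional (algebraicClosure ℚ ℂ_[p]) A] (hA : ∀ i, HasCoords A (x i)) :
    (∀ (B : Submodule (algebraicClosure ℚ ℂ_[p]) ℂ_[p])
      [FiniteDimensional (algebraicClosure ℚ ℂ_[p]) B] (s δ : ℕ),
      s ≤ finrank (algebraicClosure ℚ ℂ_[p]) B →
      finrank (algebraicClosure ℚ ℂ_[p]) (B * A : Submodule (algebraicClosure ℚ ℂ_[p]) ℂ_[p]) ≤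
        finrank (algebraicClosure ℚ ℂ_[p]) B + δ →
      (finrank ℚ F * r) * s ≤ (δ + s) * (δ + s - 1)) ∧
    finrank ℚ F * r ≤ finrank (algebraicClosure ℚ ℂ_[p]) A *
      (finrank (algebraicClosure ℚ ℂ_[p]) A - 1) ∧
    (∀ D c : ℕ, (∀ k : ℕ, finrank (algebraicClosure ℚ ℂ_[p])
        (A ^ k : Submodule (algebraicClosure ℚ ℂ_[p]) ℂ_[p]) ≤ k * D + c) →
      finrank ℚ F * r ≤ 4 * D - 2) ∧
    (∀ (n D : ℕ) (t : Fin n → ℂ_[p]), A ≤ boxV t (D + 1) →
      finrank ℚ F * r ≤ (4 * D) ^ n - 2 ^ n) := by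
  have hfin : FiniteDimensional K H := Module.Finite.of_restrictScalars_finite ℚ K H
  have hcard := ncard_cmtype F K hFK S hS
  have main : ∀ (A' : Submodule (algebraicClosure ℚ ℂ_[p]) ℂ_[p])
      [FiniteDimensional (algebraicClosure ℚ ℂ_[p]) A'], (∀ i, HasCoords A' (x i)) →
      ∀ (B : Submodule (algebraicClosure ℚ ℂ_[p]) ℂ_[p])
      [FiniteDimensional (algebraicClosure ℚ ℂ_[p]) B] (s δ : ℕ),
      s ≤ finrank (algebraicClosure ℚ ℂ_[p]) B →
      finrank (algebraicClosure ℚ ℂ_[p]) (B * A' : Submodule (algebraicClosure ℚ ℂ_[p]) ℂ_[p]) ≤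
        finrank (algebraicClosure ℚ ℂ_[p]) B + δ →
      (finrank ℚ F * r) * s ≤ (δ + s) * (δ + s - 1) := by
    intro A' _ hA' B _ s δ hs hδ
    rw [← hcard]
    exact main_ineq K H χ S hsep L hL r x hx hx0 hlog A' B hA' s δ hs hδ
  rcases Nat.eq_zero_or_pos r with hr | hr
  · subst hr
    exact ⟨by simp, by simp, by simp, by simp⟩
  have hAne : A ≠ ⊥ := by
    intro h
    apply hx0.ne_zero ⟨0, hr⟩
    refine AddSubmonoid.closure_induction (motive := fun x _ => x = 0) ?_ rfl ?_ (hA ⟨0, hr⟩)
    · rintro _ ⟨a, ha, u, rfl⟩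
      rw [h, Submodule.mem_bot] at ha
      rw [ha, TensorProduct.zero_tmul]
    · rintro x y - - rfl rfl
      exact add_zero 0
  refine ⟨fun B _ s δ hs hδ => main A hA B s δ hs hδ, ?_,
    fun D c hD => hilbert_arith' A hAne _ (fun B _ s δ hs hδ => main A hA B s δ hs hδ) D c hD, ?_⟩
  · have : FiniteDimensional (algebraicClosure ℚ ℂ_[p])
        (1 : Submodule (algebraicClosure ℚ ℂ_[p]) ℂ_[p]) := by
      rw [Submodule.one_eq_span]
      infer_instance
    have h3 := main A hA 1 1 (finrank (algebraicClosure ℚ ℂ_[p]) A - 1) (by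
      rw [Submodule.one_eq_span, finrank_span_singleton one_ne_zero]) (by
      rw [one_mul, Submodule.one_eq_span, finrank_span_singleton one_ne_zero]
      omega)
    have h4 : 1 ≤ finrank (algebraicClosure ℚ ℂ_[p]) A := by
      apply Nat.one_le_iff_ne_zero.mpr
      intro h
      exact hAne (Submodule.finrank_eq_zero.mp h)
    rw [mul_one, Nat.sub_add_cancel h4] at h3
    exact h3
  · intro n D t hAt
    have hbox : ∀ i, HasCoords (boxV t (D + 1)) (x i) := by
      intro i
      refine AddSubmonoid.closure_mono ?_ (hA i)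
      rintro y ⟨a, ha, u, rfl⟩
      exact ⟨a, hAt ha, u, rfl⟩
    have key : ∀ B C : Submodule (algebraicClosure ℚ ℂ_[p]) ℂ_[p],
        FiniteDimensional (algebraicClosure ℚ ℂ_[p]) B →
        FiniteDimensional (algebraicClosure ℚ ℂ_[p]) C →
        (∀ b ∈ B, ∀ a ∈ boxV t (D + 1), b * a ∈ C) →
        (finrank ℚ F * r) * finrank (algebraicClosure ℚ ℂ_[p]) B ≤
          finrank (algebraicClosure ℚ ℂ_[p]) C *
            (finrank (algebraicClosure ℚ ℂ_[p]) C - 1) := by
      intro B C hB hC hBC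
      have hBC' : B ≤ C := fun b hb => by
        have := hBC b hb 1 (one_mem_boxV t (by omega))
        rwa [mul_one] at this
      have hle := Submodule.finrank_mono hBC'
      have hmul : B * boxV t (D + 1) ≤ C := by
        rw [Submodule.mul_le]
        exact hBC
      have h5 := main (boxV t (D + 1)) hbox B
        (finrank (algebraicClosure ℚ ℂ_[p]) B)
        (finrank (algebraicClosure ℚ ℂ_[p]) C - finrank (algebraicClosure ℚ ℂ_[p]) B) le_rfl
        ((Submodule.finrank_mono hmul).trans (by omega))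
      rwa [Nat.sub_add_cancel hle] at h5
    rcases Nat.eq_zero_or_pos D with hD0 | hD
    · subst hD0
      have h0 : finrank (algebraicClosure ℚ ℂ_[p]) (boxV t 1) = 1 := by
        have h1 := finrank_boxV_pos t (N := 1) le_rfl
        have h2 := finrank_boxV_le t 1
        rw [one_pow] at h2
        exact le_antisymm h2 h1
      have h1 := key (boxV t 1) (boxV t 1) inferInstance inferInstance
        (box_mul t 1 1 1 (by omega))
      rw [h0] at h1
      omega
    · exact gen_arith t D _ hD (key (boxV t D) (boxV t (2 * D)) inferInstance inferInstance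
        (box_mul t D (D + 1) (2 * D) (by omega)))

end Pool.Agent.W332.SL7
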