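import Pool.Agent.W332.SL7.Proj
import Pool.Agent.W332.SL6.Main
import Pool.Agent.W254.Ab.Trunc

set_option autoImplicit false
set_option linter.unusedSectionVars false

/-!
# Coordinate spaces of elements of the kernel of the `Σ`-regulator map
-/

namespace Pool.Agent.W332.SL7

open NumberField TensorProduct Module Pool.Agent.W289.SL Pool.Agent.W332.SL6
open NumberField.Units NumberField.Units.dirichletUnitTheorem
open Pool.Agent.W254.PA (exists_theta LgP Hyp LtE)
open Pool.Agent.W254.Ab (rel_trunc)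

variable {p : ℕ} [Fact p.Prime]

/-- `x` is a sum of tensors `a ⊗ u` with `a ∈ A` -/
def HasCoords {H : Type} [Field H] [NumberField H] (A : Submodule (algebraicClosure ℚ ℂ_[p]) ℂ_[p])
    (x : UM p H) : Prop :=
  x ∈ AddSubmonoid.closure {y : UM p H | ∃ a ∈ A, ∃ u : Additive (𝓞 H)ˣ, y = a ⊗ₜ[ℤ] u}

section coords

variable {H M : Type} [Field H] [NumberField H] [Field M] [NumberField M]

lemma coords_push {A : Submodule (algebraicClosure ℚ ℂ_[p]) ℂ_[p]} {x : UM p H}
    (hx : HasCoords A x) (f : H →+* M) : ∃ b : Fin (Units.rank M) → ℂ_[p], (∀ k, b k ∈ A) ∧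
      push f x = ∑ k, b k • ((1 : ℂ_[p]) ⊗ₜ[ℤ] fu M k) := by
  refine AddSubmonoid.closure_induction (motive := fun x _ => ∃ b : Fin (Units.rank M) → ℂ_[p],
    (∀ k, b k ∈ A) ∧ push f x = ∑ k, b k • ((1 : ℂ_[p]) ⊗ₜ[ℤ] fu M k)) ?_ ?_ ?_ hx
  · rintro _ ⟨a, ha, u, rfl⟩
    obtain ⟨n, hn⟩ := one_tmul_decomp (p := p) (uMap f u)
    refine ⟨fun k => n k • a, fun k => A.toAddSubgroup.zsmul_mem ha _, ?_⟩
    have h1 : (a ⊗ₜ[ℤ] uMap f u : UM p M) = a • ((1 : ℂ_[p]) ⊗ₜ[ℤ] uMap f u) := by
      rw [TensorProduct.smul_tmul', smul_eq_mul, mul_one]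
    rw [push_tmul, h1, hn, Finset.smul_sum]
    refine Finset.sum_congr rfl fun k _ => ?_
    rw [smul_smul]
    congr 1
    change a * (n k : ℂ_[p]) = n k • a
    rw [zsmul_eq_mul, mul_comm]
  · exact ⟨0, fun k => A.zero_mem, by simp⟩
  · rintro x y - - ⟨b, hb, h⟩ ⟨b', hb', h'⟩
    refine ⟨b + b', fun k => A.add_mem (hb k) (hb' k), ?_⟩
    rw [map_add, h, h', ← Finset.sum_add_distrib]
    refine Finset.sum_congr rfl fun k _ => ?_
    rw [Pi.add_apply, add_smul]

end coords

/-- the character separates the embeddings in `S`: for any two embeddings of `H` with different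
restrictions to `K`, both in `S`, some automorphism of `ℂ_p` acts on them through elements of
`Gal(H/K)` with different values of `χ` -/
def Separates (p : ℕ) [Fact p.Prime] (K H : Type) [Field K] [Field H] [Algebra K H]
    (S : Set (K →+* ℂ_[p])) (χ : (H ≃ₐ[K] H) →* ℂ_[p]ˣ) : Prop :=
  ∀ σ σ' : H →+* ℂ_[p], σ.comp (algebraMap K H) ∈ S → σ'.comp (algebraMap K H) ∈ S →
    σ.comp (algebraMap K H) ≠ σ'.comp (algebraMap K H) →
    ∃ (g : ℂ_[p] ≃+* ℂ_[p]) (h h' : H ≃ₐ[K] H),
      (g : ℂ_[p] →+* ℂ_[p]).comp σ = σ.comp (h : H →+* H) ∧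
      (g : ℂ_[p] →+* ℂ_[p]).comp σ' = σ'.comp (h' : H →+* H) ∧ χ h ≠ χ h'

/-- **The inequality.** -/
theorem main_ineq (K H : Type) [Field K] [NumberField K] [Field H] [NumberField H] [Algebra K H]
    [FiniteDimensional K H] (χ : (H ≃ₐ[K] H) →* ℂ_[p]ˣ)
    (S : Set (K →+* ℂ_[p])) (hS : Separates p K H S χ) (L : ℂ_[p] → ℂ_[p])
    (hL : IsIwasawaLog p L) (r : ℕ) (x : Fin r → UM p H) (hx : ∀ i, InChi χ (x i))
    (hx0 : LinearIndependent ℂ_[p] x)
    (hlog : ∀ i, ∀ σ : H →+* ℂ_[p], σ.comp (algebraMap K H) ∈ S → logLin hL σ (x i) = 0)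
    (A B : Submodule (algebraicClosure ℚ ℂ_[p]) ℂ_[p])
    [FiniteDimensional (algebraicClosure ℚ ℂ_[p]) A]
    [FiniteDimensional (algebraicClosure ℚ ℂ_[p]) B] (hA : ∀ i, HasCoords A (x i)) (s δ : ℕ)
    (hs : s ≤ finrank (algebraicClosure ℚ ℂ_[p]) B)
    (hδ : finrank (algebraicClosure ℚ ℂ_[p]) (B * A : Submodule (algebraicClosure ℚ ℂ_[p]) ℂ_[p]) ≤
      finrank (algebraicClosure ℚ ℂ_[p]) B + δ) :
    (S.ncard * r) * s ≤ (δ + s) * (δ + s - 1) := by
  classical
  rcases Nat.eq_zero_or_pos r with hr | hr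
  · subst hr
    simp
  obtain ⟨θ⟩ := exists_theta p
  obtain ⟨M, iM, iN, iG, inc, hinc⟩ := exists_big p H
  have hfin : S.Finite := Set.toFinite S
  have : Fintype S := hfin.fintype
  choose σ hσ using fun b : S => exists_ext (H := H) (b : K →+* ℂ_[p])
  choose τ hτ using fun b : S => hinc (σ b)
  -- independence of the conjugates
  have hind : LinearIndependent ℂ_[p] (fun q : S × Fin r => push (τ q.1) (x q.2)) := by
    refine indep_conj χ θ hx hx0 τ fun b b' hbb' => ?_
    obtain ⟨g, h, h', e1, e2, hne⟩ := hS (σ b) (σ b') (by rw [hσ]; exact b.2)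
      (by rw [hσ]; exact b'.2) (by rw [hσ, hσ]; exact fun h => hbb' (Subtype.ext h))
    obtain ⟨γ, hγ⟩ := exists_aut (K := ℚ) (H := M) ((g : ℂ_[p] →+* ℂ_[p]).comp inc) inc
      (RingHom.ext_rat _ _)
    have key : ∀ (c : S) (k : H ≃ₐ[K] H), (g : ℂ_[p] →+* ℂ_[p]).comp (σ c) =
        (σ c).comp (k : H →+* H) → (γ : M →+* M).comp (τ c) = (τ c).comp (k : H →+* H) := by
      intro c k hk
      ext y
      apply inc.injective
      have h1 := RingHom.congr_fun hγ (τ c y)
      have h2 := RingHom.congr_fun (hτ c) y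
      have h3 := RingHom.congr_fun (hτ c) (k y)
      have h4 := RingHom.congr_fun hk y
      change inc (γ (τ c y)) = inc (τ c (k y))
      change g (inc (τ c y)) = inc (γ (τ c y)) at h1
      change inc (τ c y) = σ c y at h2
      change inc (τ c (k y)) = σ c (k y) at h3
      change g (σ c y) = σ c (k y) at h4
      rw [← h1, h2, h4, h3]
    exact ⟨γ, h, h', key b h e1, key b' h' e2, hne⟩
  -- coordinates
  choose b hbA hb using fun q : S × Fin r => coords_push (hA q.2) (τ q.1)
  have hAne : A ≠ ⊥ := by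
    intro h
    apply hx0.ne_zero ⟨0, hr⟩
    refine AddSubmonoid.closure_induction (motive := fun x _ => x = 0) ?_ rfl ?_ (hA ⟨0, hr⟩)
    · rintro _ ⟨a, ha, u, rfl⟩
      rw [h, Submodule.mem_bot] at ha
      rw [ha, TensorProduct.zero_tmul]
    · rintro x y - - rfl rfl
      exact add_zero 0
  let w : Fin (Units.rank M) → ℂ_[p] := fun k => L (inc (fundSystem M k : 𝓞 M))
  have hw : LinearIndependent (algebraicClosure ℚ ℂ_[p]) w := by
    rw [Fintype.linearIndependent_iff]
    intro c hc k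
    have h1 := brumerC hL (fun k => inc (fundSystem M k : 𝓞 M)) (fun k => nearU_unit inc _)
      (indep_log hL inc) (fun k => (c k : ℂ_[p])) (fun k => mem_algebraicClosure_iff.1 (c k).2)
      hc k
    exact Subtype.ext h1
  let f : S × Fin r → (Fin (Units.rank M) →₀ ℂ_[p]) :=
    fun c => Finsupp.equivFunOnFinite.symm (b c)
  have hf : LinearIndependent ℂ_[p] f := by
    rw [Fintype.linearIndependent_iff] at hind ⊢
    intro c hc
    apply hind c
    have h1 : ∀ k, ∑ i, c i * b i k = 0 := by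
      intro k
      have h2 := DFunLike.congr_fun hc k
      rw [Finsupp.finsetSum_apply] at h2
      exact h2
    calc ∑ i, c i • push (τ i.1) (x i.2) =
        ∑ i, ∑ k, (c i * b i k) • ((1 : ℂ_[p]) ⊗ₜ[ℤ] fu M k) := by
          refine Finset.sum_congr rfl fun i _ => ?_
          rw [hb, Finset.smul_sum]
          refine Finset.sum_congr rfl fun k _ => ?_
          rw [smul_smul]
      _ = 0 := by
          rw [Finset.sum_comm]
          refine Finset.sum_eq_zero fun k _ => ?_
          rw [← Finset.sum_smul, h1, zero_smul]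
  let e := Fintype.equivFinOfCardEq (rfl : Fintype.card (S × Fin r) = Fintype.card (S × Fin r))
  have hcard : S.ncard * r = Fintype.card (S × Fin r) := by
    rw [← Nat.card_coe_set_eq, Nat.card_eq_fintype_card, Fintype.card_prod, Fintype.card_fin]
  rw [hcard]
  refine rel_trunc hypC w hw (fun k => ?_) A B hAne _ (fun m => f (e.symm m))
    (hf.comp e.symm e.symm.injective) (fun m k => hbA (e.symm m) k) (fun m => ?_) s δ hs hδ
  · exact Submodule.subset_span (Or.inr (log_mem hL (nearU_unit inc _)))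
  · rw [Finsupp.sum_fintype _ _ (fun k => zero_mul _)]
    have h1 : logLin hL inc (push (τ (e.symm m).1) (x (e.symm m).2)) = 0 := by
      rw [logLin_push, hτ]
      exact hlog _ _ (by rw [hσ]; exact (e.symm m).1.2)
    rw [← h1, hb, map_sum]
    refine Finset.sum_congr rfl fun k _ => ?_
    rw [map_smul, logLin_tmul', one_mul, smul_eq_mul]
    rfl

end Pool.Agent.W332.SL7
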