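import Pool.Agent.W332.SL6.Chi

set_option autoImplicit false
set_option linter.unusedSectionVars false

/-!
# Linear independence of the conjugates of an element of a `χ`-part (Mackey)
-/

namespace Pool.Agent.W332.SL7

open NumberField TensorProduct Pool.Agent.W289.SL Pool.Agent.W332.SL6

variable {p : ℕ} [Fact p.Prime]

section inj

variable {H M : Type} [Field H] [NumberField H] [Field M] [NumberField M]

/-- embeddings of `H` extend along `f : H → M` -/
lemma exists_extend (f : H →+* M) (s : H →+* ℂ) : ∃ t : M →+* ℂ, t.comp f = s := by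
  let := f.toAlgebra
  let := s.toAlgebra
  have : Algebra.IsAlgebraic H M := Algebra.IsAlgebraic.tower_top (K := ℚ) H
  let φ : M →ₐ[H] ℂ := IsAlgClosed.lift
  exact ⟨φ, φ.comp_algebraMap⟩

lemma push_injective (θ : ℂ_[p] ≃+* ℂ) (f : H →+* M) (x : UM p H) (h : push f x = 0) : x = 0 := by
  refine eq_zero_of_lam θ x fun s => ?_
  obtain ⟨t, rfl⟩ := exists_extend f s
  rw [← lam_push, h, map_zero]

end inj

section proj

variable {K H M : Type} [Field K] [NumberField K] [Field H] [NumberField H] [Algebra K H]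
  [FiniteDimensional K H] [Field M] [NumberField M] (χ : (H ≃ₐ[K] H) →* ℂ_[p]ˣ)

/-- compatible pairs of automorphisms -/
def Cmp (τ : H →+* M) (q : (M ≃ₐ[ℚ] M) × (H ≃ₐ[K] H)) : Prop :=
  (q.1 : M →+* M).comp τ = τ.comp (q.2 : H →+* H)

open scoped Classical in
/-- the projector (up to a factor) to the eigenspace of the conjugate character -/
noncomputable def pr (τ : H →+* M) (x : UM p M) : UM p M :=
  ∑ q : (M ≃ₐ[ℚ] M) × (H ≃ₐ[K] H),
    if Cmp τ q then ((χ q.2⁻¹ : ℂ_[p]ˣ) : ℂ_[p]) • push (q.1 : M →+* M) x else 0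

lemma pr_sum (τ : H →+* M) {ι : Type*} (s : Finset ι) (c : ι → ℂ_[p]) (y : ι → UM p M) :
    pr χ τ (∑ i ∈ s, c i • y i) = ∑ i ∈ s, c i • pr χ τ (y i) := by
  classical
  unfold pr
  simp_rw [Finset.smul_sum]
  rw [Finset.sum_comm]
  refine Finset.sum_congr rfl fun q _ => ?_
  split_ifs with h
  · rw [map_sum, Finset.smul_sum]
    refine Finset.sum_congr rfl fun i _ => ?_
    rw [map_smul, smul_comm]
  · simp

lemma pr_smul (τ : H →+* M) (c : ℂ_[p]) (y : UM p M) : pr χ τ (c • y) = c • pr χ τ y := by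
  have h := pr_sum χ τ ({()} : Finset Unit) (fun _ => c) (fun _ => y)
  simpa using h

lemma cmp_mul {τ : H →+* M} {γ : (M ≃ₐ[ℚ] M) × (H ≃ₐ[K] H)} (hγ : Cmp τ γ)
    (q : (M ≃ₐ[ℚ] M) × (H ≃ₐ[K] H)) : Cmp τ (q * γ) ↔ Cmp τ q := by
  unfold Cmp at *
  have h1 : ((q * γ).1 : M →+* M).comp τ = (q.1 : M →+* M).comp ((γ.1 : M →+* M).comp τ) := rfl
  have h2 : τ.comp ((q * γ).2 : H →+* H) = (τ.comp (q.2 : H →+* H)).comp (γ.2 : H →+* H) := rfl
  rw [h1, h2, hγ, ← RingHom.comp_assoc]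
  constructor
  · intro h
    ext y
    have h3 := RingHom.congr_fun h (γ.2.symm y)
    have h4 : γ.2 (γ.2.symm y) = y := γ.2.apply_symm_apply y
    change (q.1 : M →+* M) (τ (γ.2 (γ.2.symm y))) = τ (q.2 (γ.2 (γ.2.symm y))) at h3
    rw [h4] at h3
    exact h3
  · intro h
    rw [h]

/-- the projector absorbs compatible pairs -/
lemma pr_push {τ : H →+* M} {γ : (M ≃ₐ[ℚ] M) × (H ≃ₐ[K] H)} (hγ : Cmp τ γ) (x : UM p M) :
    pr χ τ (push (γ.1 : M →+* M) x) = ((χ γ.2 : ℂ_[p]ˣ) : ℂ_[p]) • pr χ τ x := by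
  classical
  unfold pr
  rw [Finset.smul_sum]
  refine Fintype.sum_equiv (Equiv.mulRight γ) _ _ fun q => ?_
  rw [Equiv.coe_mulRight]
  by_cases h : Cmp τ q
  · rw [if_pos h, if_pos ((cmp_mul hγ q).2 h), push_push, smul_smul]
    have h1 : ((q.1 : M →+* M).comp (γ.1 : M →+* M)) = (((q * γ).1 : M ≃ₐ[ℚ] M) : M →+* M) := rfl
    rw [h1]
    congr 1
    rw [← Units.val_mul, ← map_mul]
    congr 2
    rw [Prod.snd_mul, mul_inv_rev, mul_inv_cancel_left]
  · rw [if_neg h, if_neg (fun h' => h ((cmp_mul hγ q).1 h')), smul_zero]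

/-- the projector on the conjugate itself -/
lemma pr_self (τ : H →+* M) {x : UM p H} (hx : InChi χ x) :
    ∃ N : ℕ, 0 < N ∧ pr χ τ (push τ x) = (N : ℂ_[p]) • push τ x := by
  classical
  refine ⟨(Finset.univ.filter fun q : (M ≃ₐ[ℚ] M) × (H ≃ₐ[K] H) => Cmp τ q).card, ?_, ?_⟩
  · apply Finset.card_pos.2
    refine ⟨1, ?_⟩
    rw [Finset.mem_filter]
    exact ⟨Finset.mem_univ _, rfl⟩
  · unfold pr
    rw [← Finset.sum_filter, Nat.cast_smul_eq_nsmul, ← Finset.sum_const]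
    refine Finset.sum_congr rfl fun q hq => ?_
    have h1 : Cmp τ q := (Finset.mem_filter.1 hq).2
    unfold Cmp at h1
    rw [push_push, h1, ← push_push, ← actLin_eq (q.2 : H →+* H), hx q.2, map_smul, smul_smul,
      ← Units.val_mul, ← map_mul, inv_mul_cancel, map_one, Units.val_one, one_smul]

/-- **Independence of conjugates.** -/
theorem conj_zero (θ : ℂ_[p] ≃+* ℂ) {J : Type*} [Fintype J] (y : J → UM p H)
    (hy : ∀ j, InChi χ (y j)) (τ : J → H →+* M)
    (hsep : ∀ j j' : J, j ≠ j' → ∃ (γ : M ≃ₐ[ℚ] M) (h h' : H ≃ₐ[K] H),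
      (γ : M →+* M).comp (τ j) = (τ j).comp (h : H →+* H) ∧
      (γ : M →+* M).comp (τ j') = (τ j').comp (h' : H →+* H) ∧ χ h ≠ χ h')
    (h0 : ∑ j, push (τ j) (y j) = 0) (j : J) : y j = 0 := by
  classical
  have h1 : pr χ (τ j) (∑ i, (1 : ℂ_[p]) • push (τ i) (y i)) = 0 := by
    have h2 := pr_smul χ (τ j) (0 : ℂ_[p]) (0 : UM p M)
    rw [zero_smul, zero_smul] at h2
    rw [← h2]
    congr 1
    rw [← h0]
    exact Finset.sum_congr rfl fun i _ => one_smul _ _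
  rw [pr_sum, Finset.sum_eq_single j] at h1
  · obtain ⟨N, hN, h3⟩ := pr_self χ (τ j) (hy j)
    rw [h3, smul_smul] at h1
    rcases smul_eq_zero.1 h1 with h4 | h4
    · exact absurd h4 (mul_ne_zero one_ne_zero (by exact_mod_cast hN.ne'))
    · exact push_injective θ _ _ h4
  · intro i _ hij
    obtain ⟨γ, h, h', e1, e2, hne⟩ := hsep j i (Ne.symm hij)
    have h3 := pr_push χ (τ := τ j) (γ := (γ, h)) e1 (push (τ i) (y i))
    have h4 : push ((γ, h) : (M ≃ₐ[ℚ] M) × (H ≃ₐ[K] H)).1.toRingHom (push (τ i) (y i)) =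
        ((χ h' : ℂ_[p]ˣ) : ℂ_[p]) • push (τ i) (y i) := by
      change push (γ : M →+* M) (push (τ i) (y i)) = _
      rw [push_push, e2, ← push_push, ← actLin_eq (h' : H →+* H), hy i h', map_smul]
    have h5 : pr χ (τ j) (((χ h' : ℂ_[p]ˣ) : ℂ_[p]) • push (τ i) (y i)) =
        ((χ h : ℂ_[p]ˣ) : ℂ_[p]) • pr χ (τ j) (push (τ i) (y i)) := by
      rw [← h4]
      exact h3
    rw [pr_smul] at h5
    have h6 : (((χ h' : ℂ_[p]ˣ) : ℂ_[p]) - ((χ h : ℂ_[p]ˣ) : ℂ_[p])) •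
        pr χ (τ j) (push (τ i) (y i)) = 0 := by
      rw [sub_smul, h5, sub_self]
    rcases smul_eq_zero.1 h6 with h7 | h7
    · exact absurd (Units.ext (sub_eq_zero.1 h7).symm) hne
    · rw [h7, smul_zero]
  · intro h
    exact absurd (Finset.mem_univ j) h

/-- **Independence of conjugates.** -/
theorem indep_conj (θ : ℂ_[p] ≃+* ℂ) {r : ℕ} {x : Fin r → UM p H} (hx : ∀ i, InChi χ (x i))
    (hx0 : LinearIndependent ℂ_[p] x) {J : Type*} [Fintype J] (τ : J → H →+* M)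
    (hsep : ∀ j j' : J, j ≠ j' → ∃ (γ : M ≃ₐ[ℚ] M) (h h' : H ≃ₐ[K] H),
      (γ : M →+* M).comp (τ j) = (τ j).comp (h : H →+* H) ∧
      (γ : M →+* M).comp (τ j') = (τ j').comp (h' : H →+* H) ∧ χ h ≠ χ h') :
    LinearIndependent ℂ_[p] (fun q : J × Fin r => push (τ q.1) (x q.2)) := by
  classical
  rw [Fintype.linearIndependent_iff] at hx0 ⊢
  rintro c hc ⟨j, i⟩
  refine hx0 (fun i => c (j, i)) ?_ i
  refine conj_zero χ θ (fun j => ∑ i, c (j, i) • x i) (fun j g => ?_) τ hsep ?_ j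
  · rw [map_sum, Finset.smul_sum]
    refine Finset.sum_congr rfl fun i _ => ?_
    rw [map_smul, hx i g, smul_comm]
  · rw [← hc, Fintype.sum_prod_type]
    refine Finset.sum_congr rfl fun j _ => ?_
    rw [map_sum]
    refine Finset.sum_congr rfl fun i _ => ?_
    rw [map_smul]

end proj

end Pool.Agent.W332.SL7
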